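import Pool.Agent.H123C.Rec

/-! Degrees and uniqueness. -/

namespace Pool.Agent.H123C

open Multiset Polynomial

variable {q : ℂ} {Z : Multiset ℂ → ℂ}

theorem LD.const (c : ℂ) : LD 0 (fun _ => c) := ⟨C c, by simp, fun x _ => by simp⟩

theorem LD.zero (n : ℕ) : LD n (fun _ => 0) := ⟨0, by simp, fun x _ => by simp⟩

theorem LD.add {n : ℕ} {f g : ℂ → ℂ} (hf : LD n f) (hg : LD n g) : LD n (fun x => f x + g x) := by
  obtain ⟨P, hP, hP'⟩ := hf
  obtain ⟨Q, hQ, hQ'⟩ := hg
  refine ⟨P + Q, (natDegree_add_le _ _).trans (max_le hP hQ), fun x hx => ?_⟩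
  rw [eval_add, ← hP' x hx, ← hQ' x hx]; ring

theorem LD.sub {n : ℕ} {f g : ℂ → ℂ} (hf : LD n f) (hg : LD n g) : LD n (fun x => f x - g x) := by
  obtain ⟨P, hP, hP'⟩ := hf
  obtain ⟨Q, hQ, hQ'⟩ := hg
  refine ⟨P - Q, (natDegree_sub_le _ _).trans (max_le hP hQ), fun x hx => ?_⟩
  rw [eval_sub, ← hP' x hx, ← hQ' x hx]; ring

theorem LD.mul {n m : ℕ} {f g : ℂ → ℂ} (hf : LD n f) (hg : LD m g) :
    LD (n + m) (fun x => f x * g x) := by
  obtain ⟨P, hP, hP'⟩ := hf
  obtain ⟨Q, hQ, hQ'⟩ := hg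
  refine ⟨P * Q, natDegree_mul_le.trans (by omega), fun x hx => ?_⟩
  rw [eval_mul, ← hP' x hx, ← hQ' x hx]; ring

theorem LD.cmul {n : ℕ} {f : ℂ → ℂ} (c : ℂ) (hf : LD n f) : LD n (fun x => c * f x) := by
  have := (LD.const c).mul hf
  rwa [zero_add] at this

theorem LD.mulc {n : ℕ} {f : ℂ → ℂ} (c : ℂ) (hf : LD n f) : LD n (fun x => f x * c) := by
  have := hf.mul (LD.const c)
  rwa [add_zero] at this

theorem LD.sum {n : ℕ} (A : Multiset ℂ) (F : ℂ → ℂ → ℂ) (h : ∀ k ∈ A, LD n (F k)) :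
    LD n (fun x => (A.map (fun k => F k x)).sum) := by
  induction A using Multiset.induction_on with
  | empty => simpa using LD.zero n
  | cons a s ih =>
    have h1 := (h a (Multiset.mem_cons_self a s)).add
      (ih (fun k hk => h k (Multiset.mem_cons_of_mem hk)))
    simpa [Multiset.map_cons, Multiset.sum_cons] using h1

theorem LD.X (c p : ℂ) (hp : p ≠ 0) : LD 1 (fun w => c - X (p * w)) := by
  refine ⟨Polynomial.C c * Polynomial.X - Polynomial.C p * Polynomial.X^2 - Polynomial.C p⁻¹,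
    ?_, fun x hx => ?_⟩
  · compute_degree
  · simp only [Pool.Agent.H123C.X, eval_sub, eval_mul, eval_C, eval_X, eval_pow]
    field_simp
    ring

theorem LD.uniq {n : ℕ} {f g : ℂ → ℂ} (hf : LD n f) (hg : LD n g) (N : Multiset ℂ)
    (hN : N.Nodup) (h0 : ∀ x ∈ N, x ≠ 0) (hc : 2 * n < card N) (he : ∀ x ∈ N, f x = g x)
    {x : ℂ} (hx : x ≠ 0) : f x = g x := by
  obtain ⟨P, hP, hP'⟩ := hf.sub hg
  have hz : P = 0 := by
    apply Polynomial.eq_zero_of_natDegree_lt_card_of_eval_eq_zero' P N.toFinset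
    · intro i hi
      rw [Multiset.mem_toFinset] at hi
      rw [← hP' i (h0 i hi)]
      show i^n * (f i - g i) = 0
      rw [he i hi, sub_self, mul_zero]
    · rw [Multiset.toFinset_card_of_nodup hN]; omega
  have : x^n * (f x - g x) = P.eval x := hP' x hx
  rw [hz, eval_zero] at this
  have h2 : f x - g x = 0 := (mul_eq_zero.mp this).resolve_left (pow_ne_zero _ hx)
  exact sub_eq_zero.mp h2

theorem card_erase' {A : Multiset ℂ} {k : ℂ} (hk : k ∈ A) : card (A.erase k) = card A - 1 := by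
  rw [Multiset.card_erase_of_mem hk]; rfl

theorem degR (hq : q^2 + q + 1 = 0) (hZ : ZH q Z) (A B : Multiset ℂ) (hA : Odd (card A))
    (hB : Odd (card B)) (h0 : ∀ s ∈ A + B, s ≠ 0) :
    LD ((card A + card B) / 2) (fun w => R q Z A w B) := by
  unfold R
  apply LD.sum A (fun k w => (X k - X (q * w)) * wt k (A.erase k) * Z (A.erase k) *
    Z (w ::ₘ (A.erase k + B)) * Z (k ::ₘ B))
  intro k hk
  have h1 := (LD.X (X k) q (qne hq)).mulc (wt k (A.erase k))
  have h2 := h1.mulc (Z (A.erase k))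
  have h3 := hZ.deg (A.erase k + B) (fun s hs => h0 s (by
    rcases Multiset.mem_add.mp hs with h | h
    · exact Multiset.mem_add.mpr (Or.inl (Multiset.mem_of_mem_erase h))
    · exact Multiset.mem_add.mpr (Or.inr h)))
  have h4 := (h2.mul h3).mulc (Z (k ::ₘ B))
  have hpos : 0 < card A := Multiset.card_pos_iff_exists_mem.mpr ⟨k, hk⟩
  have e : (card A + card B) / 2 = 1 + card (A.erase k + B) / 2 := by
    rw [Multiset.card_add, card_erase' hk]
    obtain ⟨i, hi⟩ := hA
    obtain ⟨j, hj⟩ := hB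
    omega
  rw [e]; exact h4

theorem degEF (hq : q^2 + q + 1 = 0) (hZ : ZH q Z) (A B : Multiset ℂ) (hA : Even (card A))
    (h0 : ∀ s ∈ A + B, s ≠ 0) :
    LD (card A / 2) (fun x => EF q Z A x B) := by
  unfold EF
  apply LD.sum A (fun k x => (X k - X (q^2 * x)) * wt k (A.erase k) * Z (x ::ₘ (A.erase k)) *
    Z (A.erase k + B) * Z (k ::ₘ B))
  intro k hk
  have h1 := (LD.X (X k) (q^2) (pow_ne_zero _ (qne hq))).mulc (wt k (A.erase k))
  have h3 := hZ.deg (A.erase k) (fun s hs => h0 s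
    (Multiset.mem_add.mpr (Or.inl (Multiset.mem_of_mem_erase hs))))
  have h4 := ((h1.mul h3).mulc (Z (A.erase k + B))).mulc (Z (k ::ₘ B))
  have hpos : 0 < card A := Multiset.card_pos_iff_exists_mem.mpr ⟨k, hk⟩
  have e : card A / 2 = 1 + card (A.erase k) / 2 := by
    rw [card_erase' hk]
    obtain ⟨i, hi⟩ := hA
    omega
  rw [e]; exact h4

theorem degEF' (hZ : ZH q Z) (A B : Multiset ℂ) (hB : Even (card B))
    (h0 : ∀ s ∈ A + B, s ≠ 0) :
    LD (card B / 2) (fun x => EF' Z A x B) := by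
  unfold EF'
  apply LD.sum A (fun k x => wt k (A.erase k) * Z (A.erase k) *
    Z (A.erase k + B) * Z (x ::ₘ k ::ₘ B))
  intro k hk
  have h3 := hZ.deg (k ::ₘ B) (fun s hs => h0 s (by
    rcases Multiset.mem_cons.mp hs with rfl | h
    · exact Multiset.mem_add.mpr (Or.inl hk)
    · exact Multiset.mem_add.mpr (Or.inr h)))
  have h4 := LD.cmul (wt k (A.erase k) * Z (A.erase k) * Z (A.erase k + B)) h3
  have e : card B / 2 = card (k ::ₘ B) / 2 := by
    rw [Multiset.card_cons]
    obtain ⟨i, hi⟩ := hB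
    omega
  rw [e]; exact h4

/-- the cubes of the `z^{±1}` are distinct -/
theorem nodup_cubes {S : Multiset ℂ} (h : Gen S) :
    (S.map (fun z => z^3) + S.map (fun z => (z⁻¹)^3)).Nodup := by
  have hc : (S.map (fun z => z^3)).map (fun t => t + t⁻¹) = S.map c3 := by
    rw [Multiset.map_map]; rfl
  have hc' : (S.map (fun z => (z⁻¹)^3)).map (fun t => t + t⁻¹) = S.map c3 := by
    rw [Multiset.map_map]
    refine Multiset.map_congr rfl fun z hz => ?_
    simp only [Function.comp, c3, inv_pow, inv_inv]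
    ring
  rw [Multiset.nodup_add]
  refine ⟨Multiset.Nodup.of_map _ (hc ▸ h.nd), Multiset.Nodup.of_map _ (hc' ▸ h.nd), ?_⟩
  rw [Multiset.disjoint_left]
  intro t ht ht'
  obtain ⟨x, hx, rfl⟩ := Multiset.mem_map.mp ht
  obtain ⟨y, hy, hxy⟩ := Multiset.mem_map.mp ht'
  have hx0 := h.ne x hx
  have hy0 := h.ne y hy
  have e : c3 x = c3 y := by
    unfold c3
    rw [← hxy, inv_pow, inv_inv]; ring
  have exy : x = y := Multiset.inj_on_of_nodup_map h.nd x hx y hy e
  subst exy
  apply h.six x hx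
  have h3 : x^3 ≠ 0 := pow_ne_zero _ hx0
  rw [inv_pow, inv_eq_iff_eq_inv] at hxy
  have : x^3 * x^3 = 1 := by
    nth_rewrite 2 [hxy]
    exact mul_inv_cancel₀ h3
  calc x^6 = x^3 * x^3 := by ring
    _ = 1 := this

/-- the nodes attached to a multiset -/
noncomputable def nodes (p : ℂ) (S : Multiset ℂ) : Multiset ℂ :=
  S.map (fun z => p * z) + S.map (fun z => p * z⁻¹)

theorem card_nodes (p : ℂ) (S : Multiset ℂ) : card (nodes p S) = 2 * card S := by
  unfold nodes; rw [Multiset.card_add, Multiset.card_map, Multiset.card_map]; ring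

theorem mem_nodes {p x : ℂ} {S : Multiset ℂ} (h : x ∈ nodes p S) :
    ∃ z ∈ S, ∃ z', (z' = z ∨ z' = z⁻¹) ∧ x = p * z' := by
  unfold nodes at h
  rcases Multiset.mem_add.mp h with h | h
  · obtain ⟨z, hz, rfl⟩ := Multiset.mem_map.mp h
    exact ⟨z, hz, z, Or.inl rfl, rfl⟩
  · obtain ⟨z, hz, rfl⟩ := Multiset.mem_map.mp h
    exact ⟨z, hz, z⁻¹, Or.inr rfl, rfl⟩

theorem map_nodes {p : ℂ} (hp : p^3 = 1) (S : Multiset ℂ) :
    (nodes p S).map (fun t => t^3) = S.map (fun z => z^3) + S.map (fun z => (z⁻¹)^3) := by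
  unfold nodes
  rw [Multiset.map_add, Multiset.map_map, Multiset.map_map]
  congr 1
  · refine Multiset.map_congr rfl fun z _ => ?_
    simp only [Function.comp, mul_pow, hp, one_mul]
  · refine Multiset.map_congr rfl fun z _ => ?_
    simp only [Function.comp, mul_pow, hp, one_mul]

theorem nodup_nodes {p : ℂ} (hp : p^3 = 1) {S : Multiset ℂ} (h : Gen S) : (nodes p S).Nodup := by
  apply Multiset.Nodup.of_map (fun t => t^3)
  rw [map_nodes hp]; exact nodup_cubes h

theorem nodup_nodes2 {p r : ℂ} (hp : p^3 = 1) (hr : r^3 = 1) {S T : Multiset ℂ}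
    (h : Gen (S + T)) : (nodes p S + nodes r T).Nodup := by
  apply Multiset.Nodup.of_map (fun t => t^3)
  rw [Multiset.map_add, map_nodes hp, map_nodes hr]
  have := nodup_cubes h
  rw [Multiset.map_add, Multiset.map_add] at this
  have e : ∀ a b c d : Multiset ℂ, a + b + (c + d) = a + c + (b + d) := fun a b c d => by
    rw [add_add_add_comm]
  rw [e]; exact this

theorem nodes_ne {p : ℂ} (hp : p ≠ 0) {S : Multiset ℂ} (h : ∀ z ∈ S, z ≠ 0) :
    ∀ x ∈ nodes p S, x ≠ 0 := by
  intro x hx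
  obtain ⟨z, hz, z', h', rfl⟩ := mem_nodes hx
  exact mul_ne_zero hp (zpm_ne (h z hz) h')

/-- the main uniqueness theorem -/
theorem G_eq_R (hq : q^2 + q + 1 = 0) (hZ : ZH q Z)
    (hstar : ∀ A : Multiset ℂ, Odd (card A) → Gen A →
      (A.map (fun k => wt k (A.erase k) * Z (A.erase k) ^ 2)).sum = Z A ^ 2)
    {G E E' : Multiset ℂ → ℂ → Multiset ℂ → ℂ} (hF : Fam q Z G E E') :
    ∀ n : ℕ, ∀ A B : Multiset ℂ, card A + card B = n → Odd (card A) → Odd (card B) →
      Gen (A + B) → ∀ w : ℂ, w ≠ 0 → G A w B = R q Z A w B := by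
  intro n
  induction n using Nat.strong_induction_on with
  | _ n ih =>
  intro A B hn hA hB hg w hw
  have hq3 : q^3 = 1 := q3 hq
  have hqq3 : (q^2)^3 = 1 := by
    calc (q^2)^3 = (q^3)^2 := by ring
      _ = 1 := by rw [hq3]; ring
  have hA0 : ∀ s ∈ A, s ≠ 0 := fun s hs => hg.ne s (Multiset.mem_add.mpr (Or.inl hs))
  have hB0 : ∀ s ∈ B, s ≠ 0 := fun s hs => hg.ne s (Multiset.mem_add.mpr (Or.inr hs))
  -- left nodes
  have claim1 : ∀ z ∈ A, ∀ x : ℂ, x ≠ 0 → E (A.erase z) x B = EF q Z (A.erase z) x B := by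
    intro z hz x hx
    by_cases hA1 : A.erase z = 0
    · rw [hA1, hF.E0 B x hB hB0 hx]; simp [EF]
    · have hc : card (A.erase z) = card A - 1 := card_erase' hz
      have hpos : 0 < card (A.erase z) := Multiset.card_pos.mpr hA1
      have hev : Even (card (A.erase z)) := by
        rw [hc]; obtain ⟨i, hi⟩ := hA; exact ⟨i, by omega⟩
      have hle : A.erase z ≤ A := Multiset.erase_le z A
      have hg' : Gen (A.erase z + B) := hg.mono (add_le_add hle (le_refl B))
      have h0 : ∀ s ∈ A.erase z + B, s ≠ 0 := hg'.ne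
      have hgA : Gen (A.erase z) := hg'.mono (Multiset.le_add_right _ _)
      apply LD.uniq (hF.degE _ _ hev hB h0) (degEF hq hZ _ _ hev h0) (nodes q (A.erase z))
        (nodup_nodes hq3 hgA) (nodes_ne (qne hq) hgA.ne) _ _ hx
      · rw [card_nodes]; omega
      · intro y hy
        obtain ⟨u, hu, u', hu', rfl⟩ := mem_nodes hy
        have hsplit : A.erase z = u ::ₘ (A.erase z).erase u := (Multiset.cons_erase hu).symm
        set A1 := (A.erase z).erase u with hA1def
        have hcard : card A1 = card A - 2 := by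
          rw [hA1def, card_erase' hu, hc]; omega
        have hA1odd : Odd (card A1) := by
          rw [hcard]; obtain ⟨i, hi⟩ := hA; rw [hc] at hpos; exact ⟨i - 1, by omega⟩
        have hgu : Gen ((u ::ₘ A1) + B) := by rw [← hsplit]; exact hg'
        have hg1 : Gen (A1 + B) := by
          rw [Multiset.cons_add] at hgu; exact hgu.mono (Multiset.le_cons_self _ _)
        have hgu' : Gen (u ::ₘ A1) := hgu.mono (Multiset.le_add_right _ _)
        have hu0 : u ≠ 0 := hgu'.ne u (Multiset.mem_cons_self _ _)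
        rw [hsplit]
        rw [hF.II A1 B u u' hA1odd hB hg1.ne hu0 hu', EF_II hq hZ A1 B u u' hgu' hB0 hu']
        rw [ih (card A1 + card B) (by rw [hcard]; rw [hc] at hpos; omega) A1 B rfl hA1odd hB hg1 u'
          (zpm_ne hu0 hu')]
  -- right nodes
  have claim2 : ∀ z ∈ B, ∀ x : ℂ, x ≠ 0 → E' A x (B.erase z) = EF' Z A x (B.erase z) := by
    intro z hz x hx
    by_cases hB1 : B.erase z = 0
    · rw [hB1, hF.E'0 A x hA hA0 hx]
      rw [← hstar A hA (hg.mono (Multiset.le_add_right _ _))]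
      unfold EF'
      congr 1
      refine Multiset.map_congr rfl fun k hk => ?_
      rw [hZ.two x k hx (hA0 k hk), add_zero]; ring
    · have hc : card (B.erase z) = card B - 1 := card_erase' hz
      have hpos : 0 < card (B.erase z) := Multiset.card_pos.mpr hB1
      have hev : Even (card (B.erase z)) := by
        rw [hc]; obtain ⟨i, hi⟩ := hB; exact ⟨i, by omega⟩
      have hle : B.erase z ≤ B := Multiset.erase_le z B
      have hg' : Gen (A + B.erase z) := hg.mono (add_le_add (le_refl A) hle)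
      have h0 : ∀ s ∈ A + B.erase z, s ≠ 0 := hg'.ne
      have hgB : Gen (B.erase z) := hg'.mono (Multiset.le_add_left _ _)
      apply LD.uniq (hF.degE' _ _ hA hev h0) (degEF' hZ _ _ hev h0) (nodes (q^2) (B.erase z))
        (nodup_nodes hqq3 hgB) (nodes_ne (pow_ne_zero _ (qne hq)) hgB.ne) _ _ hx
      · rw [card_nodes]; omega
      · intro y hy
        obtain ⟨u, hu, u', hu', rfl⟩ := mem_nodes hy
        have hsplit : B.erase z = u ::ₘ (B.erase z).erase u := (Multiset.cons_erase hu).symm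
        set B1 := (B.erase z).erase u with hB1def
        have hcard : card B1 = card B - 2 := by
          rw [hB1def, card_erase' hu, hc]; omega
        have hB1odd : Odd (card B1) := by
          rw [hcard]; obtain ⟨i, hi⟩ := hB; rw [hc] at hpos; exact ⟨i - 1, by omega⟩
        have hgu : Gen (A + (u ::ₘ B1)) := by rw [← hsplit]; exact hg'
        have hg1 : Gen (A + B1) := by
          rw [Multiset.add_cons] at hgu; exact hgu.mono (Multiset.le_cons_self _ _)
        have hu0 : u ≠ 0 := hgu.ne u (Multiset.mem_add.mpr (Or.inr (Multiset.mem_cons_self _ _)))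
        have hB1' : ∀ s ∈ B1, s ≠ 0 := fun s hs => hg1.ne s (Multiset.mem_add.mpr (Or.inr hs))
        rw [hsplit]
        rw [hF.II' A B1 u u' hA hB1odd hg1.ne hu0 hu', EF'_II hq hZ A B1 u u' hu0 hA0 hB1' hu']
        rw [ih (card A + card B1) (by rw [hcard]; rw [hc] at hpos; omega) A B1 rfl hA hB1odd hg1 u'
          (zpm_ne hu0 hu')]
  -- the middle
  apply LD.uniq (hF.degG A B hA hB hg.ne) (degR hq hZ A B hA hB hg.ne)
    (nodes (q^2) A + nodes q B) (nodup_nodes2 hqq3 hq3 hg) _ _ _ hw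
  · intro x hx
    rcases Multiset.mem_add.mp hx with h | h
    · exact nodes_ne (pow_ne_zero _ (qne hq)) hA0 x h
    · exact nodes_ne (qne hq) hB0 x h
  · rw [Multiset.card_add, card_nodes, card_nodes]
    obtain ⟨i, hi⟩ := hA
    omega
  · intro x hx
    rcases Multiset.mem_add.mp hx with h | h
    · obtain ⟨z, hz, z', hz', rfl⟩ := mem_nodes h
      have hsplit : A = z ::ₘ A.erase z := (Multiset.cons_erase hz).symm
      have hev : Even (card (A.erase z)) := by
        rw [card_erase' hz]; obtain ⟨i, hi⟩ := hA; exact ⟨i, by omega⟩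
      have h0 : ∀ s ∈ A.erase z + B, s ≠ 0 :=
        (hg.mono (add_le_add (Multiset.erase_le z A) (le_refl B))).ne
      have hgz : Gen (z ::ₘ A.erase z) := by
        rw [← hsplit]; exact hg.mono (Multiset.le_add_right _ _)
      have hc := claim1 z hz z' (zpm_ne (hA0 z hz) hz')
      have e1 := hF.I (A.erase z) B z z' hev hB h0 (hA0 z hz) hz'
      have e2 := R_I hq hZ (A.erase z) B z z' hgz hB0 hz'
      rw [← hsplit] at e1 e2
      rw [e1, e2, hc]
    · obtain ⟨z, hz, z', hz', rfl⟩ := mem_nodes h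
      have hsplit : B = z ::ₘ B.erase z := (Multiset.cons_erase hz).symm
      have hev : Even (card (B.erase z)) := by
        rw [card_erase' hz]; obtain ⟨i, hi⟩ := hB; exact ⟨i, by omega⟩
      have h0 : ∀ s ∈ A + B.erase z, s ≠ 0 :=
        (hg.mono (add_le_add (le_refl A) (Multiset.erase_le z B))).ne
      have hB1' : ∀ s ∈ B.erase z, s ≠ 0 := fun s hs => h0 s (Multiset.mem_add.mpr (Or.inr hs))
      have hc := claim2 z hz z' (zpm_ne (hB0 z hz) hz')
      have e1 := hF.I' A (B.erase z) z z' hA hev h0 (hB0 z hz) hz'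
      have e2 := R_I' hq hZ A (B.erase z) z z' (hB0 z hz) hA0 hB1' hz'
      rw [← hsplit] at e1 e2
      rw [e1, e2, hc]

end Pool.Agent.H123C
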