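import Mathlib

/-! Coefficientwise limits of polynomials; confluence of roots. -/

namespace Pool.Agent.H123C.Lim

open Polynomial Filter Topology Finset

/-- coefficientwise convergence -/
def TC (p : ℕ → ℂ[X]) (p0 : ℂ[X]) : Prop :=
  ∀ k, Tendsto (fun n => (p n).coeff k) atTop (𝓝 (p0.coeff k))

theorem TC.const (p : ℂ[X]) : TC (fun _ => p) p := fun _ => tendsto_const_nhds

theorem TC.add {p r : ℕ → ℂ[X]} {p0 r0 : ℂ[X]} (hp : TC p p0) (hr : TC r r0) :
    TC (fun n => p n + r n) (p0 + r0) := fun k => by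
  simpa using (hp k).add (hr k)

theorem TC.sub {p r : ℕ → ℂ[X]} {p0 r0 : ℂ[X]} (hp : TC p p0) (hr : TC r r0) :
    TC (fun n => p n - r n) (p0 - r0) := fun k => by
  simpa using (hp k).sub (hr k)

theorem TC.mul {p r : ℕ → ℂ[X]} {p0 r0 : ℂ[X]} (hp : TC p p0) (hr : TC r r0) :
    TC (fun n => p n * r n) (p0 * r0) := fun k => by
  simp only [coeff_mul]
  exact tendsto_finsetSum _ fun x _ => (hp x.1).mul (hr x.2)

theorem TC.C {c : ℕ → ℂ} {c0 : ℂ} (h : Tendsto c atTop (𝓝 c0)) :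
    TC (fun n => Polynomial.C (c n)) (Polynomial.C c0) := fun k => by
  simp only [coeff_C]
  split_ifs
  · exact h
  · exact tendsto_const_nhds

theorem TC.sum {ι : Type*} (s : Finset ι) {p : ι → ℕ → ℂ[X]} {p0 : ι → ℂ[X]}
    (h : ∀ i ∈ s, TC (p i) (p0 i)) : TC (fun n => ∑ i ∈ s, p i n) (∑ i ∈ s, p0 i) := fun k => by
  simp only [finsetSum_coeff]
  exact tendsto_finsetSum _ fun i hi => h i hi k

theorem TC.prod {ι : Type*} (s : Finset ι) {p : ι → ℕ → ℂ[X]} {p0 : ι → ℂ[X]}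
    (h : ∀ i ∈ s, TC (p i) (p0 i)) : TC (fun n => ∏ i ∈ s, p i n) (∏ i ∈ s, p0 i) := by
  classical
  induction s using Finset.induction_on with
  | empty => simpa using TC.const 1
  | insert i s hi ih =>
    have h1 := (h i (Finset.mem_insert_self i s)).mul
      (ih fun j hj => h j (Finset.mem_insert_of_mem hj))
    simpa [Finset.prod_insert hi] using h1

theorem TC.unique {p : ℕ → ℂ[X]} {p0 p1 : ℂ[X]} (h0 : TC p p0) (h1 : TC p p1) : p0 = p1 := by
  ext k
  exact tendsto_nhds_unique (h0 k) (h1 k)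

/-- synthetic division -/
theorem quot_coeff {K Q : ℂ[X]} {r : ℂ} {N : ℕ} (hK : K = (X - C r) * Q) (hQ : Q.natDegree ≤ N)
    (k : ℕ) : Q.coeff k = ∑ i ∈ range (N+1), r^i * K.coeff (k + 1 + i) := by
  have h1 : ∀ m, K.coeff (m+1) = Q.coeff m - r * Q.coeff (m+1) := by
    intro m
    rw [hK, sub_mul, coeff_sub, coeff_X_mul, coeff_C_mul]
  have h2 : ∀ M, ∑ i ∈ range M, r^i * K.coeff (k + 1 + i) = Q.coeff k - r^M * Q.coeff (k+M) := by
    intro M
    induction M with
    | zero => simp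
    | succ M ih =>
      rw [sum_range_succ, ih]
      have : k + 1 + M = (k + M) + 1 := by ring
      rw [this, h1]
      ring_nf
  have h3 : Q.coeff (k + (N+1)) = 0 := coeff_eq_zero_of_natDegree_lt (by omega)
  rw [h2, h3, mul_zero, sub_zero]

theorem quot_lim {K Q : ℕ → ℂ[X]} {K0 : ℂ[X]} {r : ℕ → ℂ} {r0 : ℂ} {N : ℕ}
    (hK : ∀ n, K n = (X - C (r n)) * Q n) (hd : ∀ n, (Q n).natDegree ≤ N)
    (hr : Tendsto r atTop (𝓝 r0)) (hK0 : TC K K0) :
    ∃ Q0 : ℂ[X], TC Q Q0 ∧ K0 = (X - C r0) * Q0 := by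
  let c : ℕ → ℂ := fun k => ∑ i ∈ range (N+1), r0^i * K0.coeff (k + 1 + i)
  have hlim : ∀ k, Tendsto (fun n => (Q n).coeff k) atTop (𝓝 (c k)) := by
    intro k
    have : (fun n => (Q n).coeff k) = fun n => ∑ i ∈ range (N+1), (r n)^i * (K n).coeff (k + 1 + i) := by
      funext n
      exact quot_coeff (hK n) (hd n) k
    rw [this]
    exact tendsto_finsetSum _ fun i _ => (hr.pow i).mul (hK0 _)
  have hc : ∀ k, N < k → c k = 0 := by
    intro k hk
    refine tendsto_nhds_unique (hlim k) ?_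
    have : (fun n => (Q n).coeff k) = fun _ => 0 := by
      funext n
      exact coeff_eq_zero_of_natDegree_lt (lt_of_le_of_lt (hd n) hk)
    rw [this]; exact tendsto_const_nhds
  let Q0 : ℂ[X] := ∑ k ∈ range (N+1), monomial k (c k)
  have hQ0 : ∀ k, Q0.coeff k = c k := by
    intro k
    simp only [Q0, finsetSum_coeff, coeff_monomial]
    rw [Finset.sum_ite_eq']
    split_ifs with h
    · rfl
    · rw [Finset.mem_range, not_lt] at h
      exact (hc k (by omega)).symm
  have hT : TC Q Q0 := fun k => by rw [hQ0]; exact hlim k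
  refine ⟨Q0, hT, ?_⟩
  have h1 : TC (fun n => (X - C (r n)) * Q n) ((X - C r0) * Q0) :=
    ((TC.const X).sub (TC.C hr)).mul hT
  have h2 : TC (fun n => (X - C (r n)) * Q n) K0 := by
    have : (fun n => (X - C (r n)) * Q n) = K := by funext n; exact (hK n).symm
    rw [this]; exact hK0
  exact h2.unique h1

/-- confluence of roots -/
theorem lim_dvd {ι : Type*} (s : Finset ι) (r : ι → ℕ → ℂ) (r0 : ℂ)
    (hr : ∀ i ∈ s, Tendsto (r i) atTop (𝓝 r0)) {N : ℕ} : ∀ {K : ℕ → ℂ[X]} {K0 : ℂ[X]},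
    (∀ n, (K n).natDegree ≤ N) → TC K K0 → (∀ n, (∏ i ∈ s, (X - C (r i n))) ∣ K n) →
    (X - C r0)^s.card ∣ K0 := by
  classical
  induction s using Finset.induction_on with
  | empty => intro K K0 _ _ _; simp
  | insert i s hi ih =>
    intro K K0 hd hK h
    choose L hL using h
    have hKQ : ∀ n, K n = (X - C (r i n)) * ((∏ j ∈ s, (X - C (r j n))) * L n) := by
      intro n
      rw [hL n, Finset.prod_insert hi, mul_assoc]
    have hdQ : ∀ n, ((∏ j ∈ s, (X - C (r j n))) * L n).natDegree ≤ N := by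
      intro n
      refine le_trans ?_ (hd n)
      rw [hKQ n]
      by_cases h0 : (∏ j ∈ s, (X - C (r j n))) * L n = 0
      · rw [h0]; simp
      · rw [natDegree_mul (X_sub_C_ne_zero _) h0]; omega
    obtain ⟨Q0, hQ0, hK0⟩ := quot_lim hKQ hdQ (hr i (Finset.mem_insert_self i s)) hK
    have h2 := ih (fun j hj => hr j (Finset.mem_insert_of_mem hj)) hdQ hQ0
      (fun n => Dvd.intro _ rfl)
    rw [Finset.card_insert_of_notMem hi, pow_succ', hK0]
    exact mul_dvd_mul_left _ h2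

/-- divisibility from distinct roots -/
theorem dvd_of_roots {ι : Type*} [Fintype ι] (r : ι → ℂ) (hr : Function.Injective r) (K : ℂ[X])
    (h : ∀ i, K.eval (r i) = 0) : (∏ i, (X - C (r i))) ∣ K := by
  apply Fintype.prod_dvd_of_coprime
  · exact Polynomial.pairwise_coprime_X_sub_C hr
  · intro i
    exact dvd_iff_isRoot.mpr (h i)

end Pool.Agent.H123C.Lim
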