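import Pool.Agent.H123C.Uniq

/-! The explicit sums `R`, `EF`, `EF'` satisfy the recursions. -/

namespace Pool.Agent.H123C

open Multiset

variable {q : ℂ} {Z : Multiset ℂ → ℂ}

theorem Gen.mono {S T : Multiset ℂ} (h : Gen T) (hst : S ≤ T) : Gen S :=
  ⟨fun z hz => h.ne z (Multiset.mem_of_le hst hz), fun z hz => h.six z (Multiset.mem_of_le hst hz),
    Multiset.nodup_of_le (Multiset.map_le_map hst) h.nd⟩

theorem Gen.nodup {S : Multiset ℂ} (h : Gen S) : S.Nodup := Multiset.Nodup.of_map _ h.nd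

theorem Gen.X_ne {S : Multiset ℂ} {z k : ℂ} (h : Gen (z ::ₘ S)) (hk : k ∈ S) : X k ≠ X z := by
  apply X_ne_of_c3 (h.ne k (Multiset.mem_cons_of_mem hk)) (h.ne z (Multiset.mem_cons_self z S))
  intro he
  have := h.nd
  rw [Multiset.map_cons, Multiset.nodup_cons] at this
  exact this.1 (he ▸ Multiset.mem_map_of_mem c3 hk)

theorem Gen.ne' {S : Multiset ℂ} {z k : ℂ} (h : Gen (z ::ₘ S)) (hk : k ∈ S) : k ≠ z := by
  rintro rfl; exact h.X_ne hk rfl

theorem prod_map_erase {A : Multiset ℂ} {k : ℂ} (hk : k ∈ A) (f : ℂ → ℂ) :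
    (A.map f).prod = f k * ((A.erase k).map f).prod := by
  conv_lhs => rw [← Multiset.cons_erase hk]
  rw [Multiset.map_cons, Multiset.prod_cons]

theorem zpm_ne {z z' : ℂ} (hz : z ≠ 0) (h : z' = z ∨ z' = z⁻¹) : z' ≠ 0 := by
  rcases h with rfl | rfl
  · exact hz
  · exact inv_ne_zero hz

theorem ZH.pm (hZ : ZH q Z) {z z' : ℂ} (hz : z ≠ 0) (h : z' = z ∨ z' = z⁻¹) {S : Multiset ℂ}
    (hS : ∀ s ∈ S, s ≠ 0) : Z (z ::ₘ S) = Z (z' ::ₘ S) := by
  rcases h with rfl | rfl
  · rfl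
  · exact (hZ.inv z S hz hS).symm

theorem R_I (hq : q^2 + q + 1 = 0) (hZ : ZH q Z) (A B : Multiset ℂ) (z z' : ℂ)
    (hg : Gen (z ::ₘ A)) (hB : ∀ s ∈ B, s ≠ 0) (h : z' = z ∨ z' = z⁻¹) :
    R q Z (z ::ₘ A) (q^2 * z') B =
      ((A + B).map (fun o => X o - X (q * z'))).prod * EF q Z A z' B := by
  have hz : z ≠ 0 := hg.ne z (Multiset.mem_cons_self z A)
  have hz' := zpm_ne hz h
  have hX := X_pm h
  have hA : ∀ s ∈ A, s ≠ 0 := fun s hs => hg.ne s (Multiset.mem_cons_of_mem hs)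
  unfold R EF
  rw [Multiset.map_cons, Multiset.sum_cons, Xqqq hq, hX, sub_self, zero_mul, zero_mul, zero_mul,
    zero_mul, zero_add, ← Multiset.sum_map_mul_left]
  congr 1
  refine Multiset.map_congr rfl fun k hk => ?_
  have hkz : k ≠ z := hg.ne' hk
  have hXk : X k - X z ≠ 0 := sub_ne_zero.mpr (hg.X_ne hk)
  have he : (z ::ₘ A).erase k = z ::ₘ A.erase k := by
    rw [Multiset.erase_cons_tail]; exact fun h => hkz h.symm
  have hAe : ∀ s ∈ A.erase k, s ≠ 0 := fun s hs => hA s (Multiset.mem_of_mem_erase hs)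
  have hAB : ∀ s ∈ A.erase k + B, s ≠ 0 := by
    intro s hs
    rcases Multiset.mem_add.mp hs with h | h
    · exact hAe s h
    · exact hB s h
  have hw : Z ((q^2 * z') ::ₘ ((z ::ₘ A.erase k) + B)) =
      ((A.erase k + B).map (fun s => X s - X (q * z'))).prod * Z (A.erase k + B) := by
    have h1 : Z ((q^2 * z') ::ₘ ((z ::ₘ A.erase k) + B)) =
        Z (z' ::ₘ (q^2 * z') ::ₘ (A.erase k + B)) := by
      rw [Multiset.cons_add, Multiset.cons_swap]
      apply hZ.pm hz h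
      intro s hs
      rcases Multiset.mem_cons.mp hs with rfl | h
      · exact mul_ne_zero (pow_ne_zero _ (qne hq)) hz'
      · exact hAB s h
    have h2 := hZ.wheel (q^2 * z') (A.erase k + B) (mul_ne_zero (pow_ne_zero _ (qne hq)) hz') hAB
    have h3 : q * (q^2 * z') = z' := by linear_combination z' * q3 hq
    rw [h3] at h2
    rw [h1, Multiset.cons_swap, h2]
    congr 2
    refine Multiset.map_congr rfl fun s hs => ?_
    rw [Xq2q2 hq]
  have hp : ((A + B).map (fun o => X o - X (q * z'))).prod = (X k - X (q * z')) *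
      ((A.erase k + B).map (fun s => X s - X (q * z'))).prod := by
    rw [Multiset.map_add, Multiset.prod_add, prod_map_erase hk, Multiset.map_add, Multiset.prod_add,
      mul_assoc]
  have hwt : wt k (z ::ₘ A.erase k) = (X k - X (q * z')) * (X k - X (q^2 * z')) / (X k - X z) *
      wt k (A.erase k) := by
    unfold wt
    rw [Multiset.map_cons, Multiset.prod_cons, ← Qf_fac hq hz', hX]
  have hzz : Z (z ::ₘ A.erase k) = Z (z' ::ₘ A.erase k) := hZ.pm hz h hAe
  rw [he, hw, hp, hwt, hzz]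
  field_simp

theorem EF_II (hq : q^2 + q + 1 = 0) (hZ : ZH q Z) (A B : Multiset ℂ) (z z' : ℂ)
    (hg : Gen (z ::ₘ A)) (hB : ∀ s ∈ B, s ≠ 0) (h : z' = z ∨ z' = z⁻¹) :
    EF q Z (z ::ₘ A) (q * z') B =
      (A.map (fun o => X o - X (q^2 * z'))).prod * R q Z A z' B := by
  have hz : z ≠ 0 := hg.ne z (Multiset.mem_cons_self z A)
  have hz' := zpm_ne hz h
  have hX := X_pm h
  have hA : ∀ s ∈ A, s ≠ 0 := fun s hs => hg.ne s (Multiset.mem_cons_of_mem hs)
  unfold R EF
  rw [Multiset.map_cons, Multiset.sum_cons, Xqqq' hq, hX, sub_self, zero_mul, zero_mul, zero_mul,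
    zero_mul, zero_add, ← Multiset.sum_map_mul_left]
  congr 1
  refine Multiset.map_congr rfl fun k hk => ?_
  have hkz : k ≠ z := hg.ne' hk
  have hXk : X k - X z ≠ 0 := sub_ne_zero.mpr (hg.X_ne hk)
  have he : (z ::ₘ A).erase k = z ::ₘ A.erase k := by
    rw [Multiset.erase_cons_tail]; exact fun h => hkz h.symm
  have hAe : ∀ s ∈ A.erase k, s ≠ 0 := fun s hs => hA s (Multiset.mem_of_mem_erase hs)
  have hAB : ∀ s ∈ A.erase k + B, s ≠ 0 := by
    intro s hs
    rcases Multiset.mem_add.mp hs with h | h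
    · exact hAe s h
    · exact hB s h
  have hw : Z ((q * z') ::ₘ (z ::ₘ A.erase k)) =
      ((A.erase k).map (fun s => X s - X (q^2 * z'))).prod * Z (A.erase k) := by
    have h1 : Z ((q * z') ::ₘ (z ::ₘ A.erase k)) = Z (z' ::ₘ (q * z') ::ₘ (A.erase k)) := by
      rw [Multiset.cons_swap]
      apply hZ.pm hz h
      intro s hs
      rcases Multiset.mem_cons.mp hs with rfl | h
      · exact mul_ne_zero (qne hq) hz'
      · exact hAe s h
    rw [h1, hZ.wheel z' (A.erase k) hz' hAe]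
  have hp : (A.map (fun o => X o - X (q^2 * z'))).prod = (X k - X (q^2 * z')) *
      ((A.erase k).map (fun s => X s - X (q^2 * z'))).prod := prod_map_erase hk _
  have hwt : wt k (z ::ₘ A.erase k) = (X k - X (q * z')) * (X k - X (q^2 * z')) / (X k - X z) *
      wt k (A.erase k) := by
    unfold wt
    rw [Multiset.map_cons, Multiset.prod_cons, ← Qf_fac hq hz', hX]
  have hzz : Z ((z ::ₘ A.erase k) + B) = Z (z' ::ₘ (A.erase k + B)) := by
    rw [Multiset.cons_add]; exact hZ.pm hz h hAB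
  rw [he, hw, hp, hwt, hzz]
  field_simp

theorem R_I' (hq : q^2 + q + 1 = 0) (hZ : ZH q Z) (A B : Multiset ℂ) (z z' : ℂ) (hz : z ≠ 0)
    (hA : ∀ s ∈ A, s ≠ 0) (hB : ∀ s ∈ B, s ≠ 0) (h : z' = z ∨ z' = z⁻¹) :
    R q Z A (q * z') (z ::ₘ B) =
      ((A + B).map (fun o => X o - X (q^2 * z'))).prod * EF' Z A z' B := by
  have hz' := zpm_ne hz h
  unfold R EF'
  rw [← Multiset.sum_map_mul_left]
  congr 1
  refine Multiset.map_congr rfl fun k hk => ?_
  have hAe : ∀ s ∈ A.erase k, s ≠ 0 := fun s hs => hA s (Multiset.mem_of_mem_erase hs)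
  have hAB : ∀ s ∈ A.erase k + B, s ≠ 0 := by
    intro s hs
    rcases Multiset.mem_add.mp hs with h | h
    · exact hAe s h
    · exact hB s h
  have hw : Z ((q * z') ::ₘ (A.erase k + (z ::ₘ B))) =
      ((A.erase k + B).map (fun s => X s - X (q^2 * z'))).prod * Z (A.erase k + B) := by
    have h1 : Z ((q * z') ::ₘ (A.erase k + (z ::ₘ B))) =
        Z (z' ::ₘ (q * z') ::ₘ (A.erase k + B)) := by
      rw [Multiset.add_cons, Multiset.cons_swap]
      apply hZ.pm hz h
      intro s hs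
      rcases Multiset.mem_cons.mp hs with rfl | h
      · exact mul_ne_zero (qne hq) hz'
      · exact hAB s h
    rw [h1, hZ.wheel z' _ hz' hAB]
  have hp : ((A + B).map (fun o => X o - X (q^2 * z'))).prod = (X k - X (q^2 * z')) *
      ((A.erase k + B).map (fun s => X s - X (q^2 * z'))).prod := by
    rw [Multiset.map_add, Multiset.prod_add, prod_map_erase hk, Multiset.map_add, Multiset.prod_add,
      mul_assoc]
  have hzz : Z (k ::ₘ z ::ₘ B) = Z (z' ::ₘ k ::ₘ B) := by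
    rw [Multiset.cons_swap]
    apply hZ.pm hz h
    intro s hs
    rcases Multiset.mem_cons.mp hs with rfl | h
    · exact hA _ hk
    · exact hB s h
  rw [hw, hp, hzz, Xqq1]
  ring

theorem EF'_II (hq : q^2 + q + 1 = 0) (hZ : ZH q Z) (A B : Multiset ℂ) (z z' : ℂ) (hz : z ≠ 0)
    (hA : ∀ s ∈ A, s ≠ 0) (hB : ∀ s ∈ B, s ≠ 0) (h : z' = z ∨ z' = z⁻¹) :
    EF' Z A (q^2 * z') (z ::ₘ B) =
      (B.map (fun o => X o - X (q * z'))).prod * R q Z A z' B := by
  have hz' := zpm_ne hz h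
  unfold R EF'
  rw [← Multiset.sum_map_mul_left]
  congr 1
  refine Multiset.map_congr rfl fun k hk => ?_
  have hAe : ∀ s ∈ A.erase k, s ≠ 0 := fun s hs => hA s (Multiset.mem_of_mem_erase hs)
  have hAB : ∀ s ∈ A.erase k + B, s ≠ 0 := by
    intro s hs
    rcases Multiset.mem_add.mp hs with h | h
    · exact hAe s h
    · exact hB s h
  have hkB : ∀ s ∈ k ::ₘ B, s ≠ 0 := by
    intro s hs
    rcases Multiset.mem_cons.mp hs with rfl | h
    · exact hA _ hk
    · exact hB s h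
  have hw : Z ((q^2 * z') ::ₘ k ::ₘ z ::ₘ B) =
      (X k - X (q * z')) * (B.map (fun s => X s - X (q * z'))).prod * Z (k ::ₘ B) := by
    have h1 : Z ((q^2 * z') ::ₘ k ::ₘ z ::ₘ B) = Z (z' ::ₘ (q^2 * z') ::ₘ (k ::ₘ B)) := by
      rw [Multiset.cons_swap k z, Multiset.cons_swap (q^2 * z') z]
      apply hZ.pm hz h
      intro s hs
      rcases Multiset.mem_cons.mp hs with rfl | h
      · exact mul_ne_zero (pow_ne_zero _ (qne hq)) hz'
      · exact hkB s h
    have h2 := hZ.wheel (q^2 * z') (k ::ₘ B) (mul_ne_zero (pow_ne_zero _ (qne hq)) hz') hkB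
    have h3 : q * (q^2 * z') = z' := by linear_combination z' * q3 hq
    rw [h3] at h2
    rw [h1, Multiset.cons_swap, h2, Multiset.map_cons, Multiset.prod_cons, Xq2q2 hq]
  have hzz : Z (A.erase k + (z ::ₘ B)) = Z (z' ::ₘ (A.erase k + B)) := by
    rw [Multiset.add_cons]; exact hZ.pm hz h hAB
  rw [hw, hzz]
  ring

end Pool.Agent.H123C
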