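import Mathlib

/-!
Abstract uniqueness for the slit-strip gluing polynomials (discrete Cardy formula).
Parameters are the squares `ζ = z²` of the spectral parameters.
-/

namespace Pool.Agent.H123C

open Multiset

/-- `z + 1/z` -/
noncomputable def X (z : ℂ) : ℂ := z + z⁻¹

/-- the quadratic form vanishing exactly at cubic partners -/
def Qf (x y : ℂ) : ℂ := x^2 + x*y + y^2 - 3

/-- `z³ + 1/z³` -/
noncomputable def c3 (z : ℂ) : ℂ := z^3 + (z^3)⁻¹

/-- `x^n f x` is a polynomial of degree at most `2n` for `x ≠ 0` -/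
def LD (n : ℕ) (f : ℂ → ℂ) : Prop :=
  ∃ P : Polynomial ℂ, P.natDegree ≤ 2 * n ∧ ∀ x : ℂ, x ≠ 0 → x^n * f x = P.eval x

/-- the facts on the symplectic characters `Z` that are used -/
structure ZH (q : ℂ) (Z : Multiset ℂ → ℂ) : Prop where
  two : ∀ x y : ℂ, x ≠ 0 → y ≠ 0 → Z (x ::ₘ y ::ₘ 0) = 1
  wheel : ∀ (x : ℂ) (S : Multiset ℂ), x ≠ 0 → (∀ s ∈ S, s ≠ 0) →
    Z (x ::ₘ (q * x) ::ₘ S) = (S.map (fun s => X s - X (q^2 * x))).prod * Z S
  inv : ∀ (x : ℂ) (S : Multiset ℂ), x ≠ 0 → (∀ s ∈ S, s ≠ 0) → Z (x⁻¹ ::ₘ S) = Z (x ::ₘ S)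
  deg : ∀ S : Multiset ℂ, (∀ s ∈ S, s ≠ 0) → LD (card S / 2) (fun x => Z (x ::ₘ S))

/-- generic multisets of parameters -/
structure Gen (S : Multiset ℂ) : Prop where
  ne : ∀ z ∈ S, z ≠ 0
  six : ∀ z ∈ S, z^6 ≠ 1
  nd : (S.map c3).Nodup

/-- weight of the element `k` in `A` (`A' = A.erase k`) -/
noncomputable def wt (k : ℂ) (A' : Multiset ℂ) : ℂ :=
  (A'.map (fun i => Qf (X i) (X k) / (X k - X i))).prod

noncomputable def R (q : ℂ) (Z : Multiset ℂ → ℂ) (A : Multiset ℂ) (w : ℂ) (B : Multiset ℂ) : ℂ :=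
  (A.map (fun k => (X k - X (q * w)) * wt k (A.erase k) * Z (A.erase k) *
    Z (w ::ₘ (A.erase k + B)) * Z (k ::ₘ B))).sum

noncomputable def EF (q : ℂ) (Z : Multiset ℂ → ℂ) (A : Multiset ℂ) (x : ℂ) (B : Multiset ℂ) : ℂ :=
  (A.map (fun k => (X k - X (q^2 * x)) * wt k (A.erase k) * Z (x ::ₘ (A.erase k)) *
    Z (A.erase k + B) * Z (k ::ₘ B))).sum

noncomputable def EF' (Z : Multiset ℂ → ℂ) (A : Multiset ℂ) (x : ℂ) (B : Multiset ℂ) : ℂ :=
  (A.map (fun k => wt k (A.erase k) * Z (A.erase k) *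
    Z (A.erase k + B) * Z (x ::ₘ k ::ₘ B))).sum

/-- hypotheses on the glued functions: `G` (marked strand in the middle), `E` (marked last strand
of the left upper vector), `E'` (marked first strand of the right upper vector). -/
structure Fam (q : ℂ) (Z : Multiset ℂ → ℂ) (G E E' : Multiset ℂ → ℂ → Multiset ℂ → ℂ) : Prop where
  degG : ∀ A B, Odd (card A) → Odd (card B) → (∀ s ∈ A + B, s ≠ 0) →
    LD ((card A + card B) / 2) (fun w => G A w B)
  degE : ∀ A B, Even (card A) → Odd (card B) → (∀ s ∈ A + B, s ≠ 0) →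
    LD (card A / 2) (fun x => E A x B)
  degE' : ∀ A B, Odd (card A) → Even (card B) → (∀ s ∈ A + B, s ≠ 0) →
    LD (card B / 2) (fun x => E' A x B)
  I : ∀ A B (z z' : ℂ), Even (card A) → Odd (card B) → (∀ s ∈ A + B, s ≠ 0) → z ≠ 0 →
    (z' = z ∨ z' = z⁻¹) →
    G (z ::ₘ A) (q^2 * z') B = ((A + B).map (fun o => X o - X (q * z'))).prod * E A z' B
  II : ∀ A B (z z' : ℂ), Odd (card A) → Odd (card B) → (∀ s ∈ A + B, s ≠ 0) → z ≠ 0 →
    (z' = z ∨ z' = z⁻¹) →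
    E (z ::ₘ A) (q * z') B = (A.map (fun o => X o - X (q^2 * z'))).prod * G A z' B
  I' : ∀ A B (z z' : ℂ), Odd (card A) → Even (card B) → (∀ s ∈ A + B, s ≠ 0) → z ≠ 0 →
    (z' = z ∨ z' = z⁻¹) →
    G A (q * z') (z ::ₘ B) = ((A + B).map (fun o => X o - X (q^2 * z'))).prod * E' A z' B
  II' : ∀ A B (z z' : ℂ), Odd (card A) → Odd (card B) → (∀ s ∈ A + B, s ≠ 0) → z ≠ 0 →
    (z' = z ∨ z' = z⁻¹) →
    E' A (q^2 * z') (z ::ₘ B) = (B.map (fun o => X o - X (q * z'))).prod * G A z' B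
  E0 : ∀ B x, Odd (card B) → (∀ s ∈ B, s ≠ 0) → x ≠ 0 → E 0 x B = 0
  E'0 : ∀ A x, Odd (card A) → (∀ s ∈ A, s ≠ 0) → x ≠ 0 → E' A x 0 = Z A ^ 2

/-! ## algebra of `X` -/

section
variable {q : ℂ} (hq : q^2 + q + 1 = 0)
include hq

theorem q3 : q^3 = 1 := by linear_combination (q - 1) * hq

theorem qne : q ≠ 0 := by
  rintro rfl; norm_num at hq

theorem qinv : q⁻¹ = q^2 := by
  have := q3 hq
  have h0 := qne hq
  field_simp
  linear_combination -this

theorem Xq (z : ℂ) : X (q * z) = q * z + q^2 * z⁻¹ := by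
  unfold X; rw [mul_inv, qinv hq]

theorem Xqq (z : ℂ) : X (q^2 * z) = q^2 * z + q * z⁻¹ := by
  have h : (q^2)⁻¹ = q := by
    rw [← inv_pow, qinv hq]
    linear_combination q * q3 hq
  unfold X; rw [mul_inv, h]

theorem Xqqq (z : ℂ) : X (q * (q^2 * z)) = X z := by
  have : q * (q^2 * z) = z := by linear_combination z * q3 hq
  rw [this]

theorem Xqqq' (z : ℂ) : X (q^2 * (q * z)) = X z := by
  have : q^2 * (q * z) = z := by linear_combination z * q3 hq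
  rw [this]

theorem Xq2q2 (z : ℂ) : X (q^2 * (q^2 * z)) = X (q * z) := by
  have : q^2 * (q^2 * z) = q * z := by linear_combination (q * z) * q3 hq
  rw [this]

omit hq in
theorem Xqq1 (z : ℂ) : X (q * (q * z)) = X (q^2 * z) := by
  have : q * (q * z) = q^2 * z := by ring
  rw [this]

theorem Qf_fac {z : ℂ} (hz : z ≠ 0) (k : ℂ) :
    Qf (X z) (X k) = (X k - X (q * z)) * (X k - X (q^2 * z)) := by
  rw [Xq hq, Xqq hq]
  generalize X k = y
  unfold X Qf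
  have h1 : z * z⁻¹ = 1 := mul_inv_cancel₀ hz
  generalize z⁻¹ = t at *
  linear_combination ((z + t) * y - (q - 1) * (z^2 + t^2) - (q^2 - q + 1)) * hq
    + (2 - q^2 - q^4) * h1

omit hq in
theorem c3_sub {x y : ℂ} (hx : x ≠ 0) (hy : y ≠ 0) :
    c3 x - c3 y = (X x - X y) * Qf (X y) (X x) := by
  unfold c3 X Qf
  have h1 : x * x⁻¹ = 1 := mul_inv_cancel₀ hx
  have h2 : y * y⁻¹ = 1 := mul_inv_cancel₀ hy
  rw [← inv_pow, ← inv_pow]
  generalize x⁻¹ = s at *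
  generalize y⁻¹ = t at *
  linear_combination (-3 * (x + s)) * h1 + (3 * (y + t)) * h2

end

theorem X_ne_of_c3 {x y : ℂ} (hx : x ≠ 0) (hy : y ≠ 0) (h : c3 x ≠ c3 y) : X x ≠ X y := by
  intro h'
  apply h
  have h1 : c3 x - c3 y = (X x - X y) * Qf (X y) (X x) := by
    unfold c3 X Qf
    have h1 : x * x⁻¹ = 1 := mul_inv_cancel₀ hx
    have h2 : y * y⁻¹ = 1 := mul_inv_cancel₀ hy
    rw [← inv_pow, ← inv_pow]
    generalize x⁻¹ = s at *
    generalize y⁻¹ = t at *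
    linear_combination (-3 * (x + s)) * h1 + (3 * (y + t)) * h2
  rw [h', sub_self, zero_mul] at h1
  exact sub_eq_zero.mp h1

theorem X_inv (z : ℂ) : X z⁻¹ = X z := by
  unfold X; rw [inv_inv, add_comm]

theorem X_pm {z z' : ℂ} (h : z' = z ∨ z' = z⁻¹) : X z' = X z := by
  rcases h with rfl | rfl
  · rfl
  · exact X_inv z

end Pool.Agent.H123C
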